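import Pool.Graph.R_pool_sql_team_seeded_620a6dc7.Helper976_Bal.Pairs

set_option autoImplicit false
set_option linter.unusedSectionVars false

/-!
# The parity condition improves Beck's bound: a better constant

This follows the library's proof of the bound `d - 1 / 2` (`Helper976_Bal`) with better weights for
the frozen sum, a better choice of the pair which is split, and the sine weights also in the last
stage.
-/

namespace Pool.Agent.H99.BV

open Finset Module Pool.Agent.Helper976.Bal

variable {E : Type*} [NormedAddCommGroup E] [InnerProductSpace ℝ E]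
variable {ι : Type*} [Fintype ι] [DecidableEq ι]

lemma poly_ineq2 {U s γ : ℝ} (h1 : 1 / 4 < U) (h2 : U ≤ γ) (h3 : γ < 8 / 15) (hs : s = γ + U)
    (h : 2 * U * (2 - s) ≤ 2.7183 * s * (s - 2 * U)) : False := by
  subst hs
  have e : (γ + U) * (γ + U - 2 * U) = γ ^ 2 - U ^ 2 := by ring
  have h4 : γ ^ 2 < (8 / 15) ^ 2 := pow_lt_pow_left₀ h3 (by linarith) (by norm_num)
  have h5 : 2.7183 * (γ + U) * (γ + U - 2 * U) = 2.7183 * (γ ^ 2 - U ^ 2) := by rw [mul_assoc, e]
  rw [h5] at h
  nlinarith [mul_pos (show (0:ℝ) < U by linarith) (sub_pos.mpr h3)]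

/-- The frozen sum is short. -/
lemma frozen_short2 {v : ι → E} (hv : ∀ i, ‖v i‖ = 1) {R : ℝ} (hR : Low univ v 0 R) {d : ℕ}
    (hRd : (d : ℝ) - 8 / 15 < R) {x : ι → ℝ} (hx : InQ v x) (hc : (alive x).card ≤ d) :
    ‖fsum v x‖ ^ 2 ≤ 1 / 4 := by
  obtain ⟨hcd, hX⟩ := vertex_card hv hR (by linarith) hx hc
  have hlow := low_frozen hR hx
  set S := alive x with hS
  set u := fsum v x with hu
  set X := ∑ i ∈ S, x i ^ 2 with hXdef
  have hX0 : 0 ≤ X := sum_nonneg fun i _ => sq_nonneg _
  have hxu : ∑ i ∈ S, x i • v i = -u := fsum_eq hx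
  have hN : ∑ i ∈ S, ‖v i‖ ^ 2 = d := by
    simp [hv, hcd]
  have hscale : ∀ l : ℝ, ∑ i ∈ S, (l * x i) • v i = -(l • u) := by
    intro l
    simp only [mul_smul, ← smul_sum, hxu, smul_neg]
  have hsq : ∀ l : ℝ, ∑ i ∈ S, (l * x i) ^ 2 = l ^ 2 * X := by
    intro l
    simp only [mul_pow, ← mul_sum, hXdef]
  -- the quadratic weights
  have hW : ∀ l : ℝ, 4 * l * ‖u‖ ^ 2 ≤ ((d - R) + ‖u‖ ^ 2) * (1 + l ^ 2 * X) +
      2 * l ^ 2 * (‖u‖ ^ 2 - X) := by
    intro l
    have h := low_quad v (fun i => l * x i) R S u 1 hlow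
    simp only [hv, one_pow, mul_one, hscale, norm_neg, norm_smul, mul_pow, inner_neg_right,
      inner_smul_right, real_inner_self_eq_norm_sq, Real.norm_eq_abs, sq_abs] at h
    have e : ∑ i ∈ S, l ^ 2 * x i ^ 2 = l ^ 2 * X := by rw [← mul_sum]
    simp only [sum_const, nsmul_eq_mul, mul_one, hcd, e] at h
    nlinarith [h]
  set U := ‖u‖ ^ 2 with hU
  have hU0 : 0 ≤ U := sq_nonneg _
  have hW1 := hW 1
  have hW2 := hW 2
  by_contra hcon
  push Not at hcon
  have hUe : U ≤ d - R := by nlinarith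
  set s := (d - R) + U with hs
  have hs0 : 0 < s := by linarith
  have hXpos : 0 < X := by
    rcases hX0.lt_or_eq with h | h
    · exact h
    · exfalso
      have h1 : ∀ i ∈ S, x i ^ 2 = 0 := by
        rw [← sum_eq_zero_iff_of_nonneg (fun i _ => sq_nonneg (x i))]
        exact h.symm
      have h2 : ∑ i ∈ S, x i • v i = 0 := sum_eq_zero fun i hi => by
        have := h1 i hi
        have : x i = 0 := by simpa using this
        simp [this]
      rw [hxu, neg_eq_zero] at h2
      rw [hU, h2] at hcon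
      norm_num at hcon
  -- the sine weight
  have hsin : 4 * U ^ 2 ≤ 2.7183 * (s ^ 2 * X) := by
    set l := 1 / Real.sqrt X with hl
    have hl0 : 0 < l := by positivity
    have hl2 : l ^ 2 * X = 1 := by
      rw [hl, div_pow, Real.sq_sqrt hX0]
      field_simp
    have h := low_cos v (fun i => Real.arctan (l * x i)) (fun i => l * x i) (by
      intro i
      rw [Real.sin_arctan, Real.cos_arctan]
      ring) R S u (-(Real.pi / 2)) hlow
    simp only [Real.cos_neg, Real.cos_pi_div_two, Real.sin_neg, Real.sin_pi_div_two, zero_mul,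
      add_zero, mul_one, hscale, inner_neg_right, inner_smul_right, real_inner_self_eq_norm_sq,
      zero_sub, hv, one_pow] at h
    simp only [sum_const, nsmul_eq_mul, mul_one, hcd] at h
    set C := ∏ i ∈ S, Real.cos (Real.arctan (l * x i)) with hC
    have h1 : 2 * C * l * U ≤ s := by nlinarith [h]
    have hC0 : 0 < C := prod_pos fun i _ => Real.cos_arctan_pos _
    have hC2 : Real.exp (-1) ≤ C ^ 2 := by
      rw [hC, ← prod_pow, ← hl2, ← hsq, ← sum_neg_distrib, Real.exp_sum]
      apply prod_le_prod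
      · intro i _; positivity
      · intro i _
        rw [Real.cos_sq_arctan, Real.exp_neg, one_div]
        apply inv_anti₀ (by positivity)
        have := Real.add_one_le_exp ((l * x i) ^ 2)
        linarith
    have h2 : (2 * C * l * U) ^ 2 ≤ s ^ 2 := pow_le_pow_left₀ (by positivity) h1 2
    have h3 : 4 * U ^ 2 * C ^ 2 ≤ s ^ 2 * X := by
      have : (2 * C * l * U) ^ 2 * X = 4 * U ^ 2 * C ^ 2 * (l ^ 2 * X) := by ring
      rw [hl2, mul_one] at this
      rw [← this]
      exact mul_le_mul_of_nonneg_right h2 hX0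
    have h4 : 4 * U ^ 2 * Real.exp (-1) ≤ s ^ 2 * X :=
      (mul_le_mul_of_nonneg_left hC2 (by positivity)).trans h3
    have h5 : Real.exp (-1) * Real.exp 1 = 1 := by rw [← Real.exp_add]; simp
    have h6 := Real.exp_one_lt_d9
    have h7 : 0 < Real.exp (-1) := Real.exp_pos _
    have h8 : 4 * U ^ 2 = 4 * U ^ 2 * Real.exp (-1) * Real.exp 1 := by
      rw [mul_assoc, h5, mul_one]
    have h9 : 0 ≤ s ^ 2 * X := by positivity
    calc 4 * U ^ 2 = 4 * U ^ 2 * Real.exp (-1) * Real.exp 1 := h8
      _ ≤ s ^ 2 * X * Real.exp 1 := mul_le_mul_of_nonneg_right h4 (Real.exp_pos _).le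
      _ ≤ s ^ 2 * X * 2.7183 := mul_le_mul_of_nonneg_left (by linarith) h9
      _ = 2.7183 * (s ^ 2 * X) := by ring
  have hU14 : 1 / 4 < U := hcon
  have hUpos : 0 < U := by linarith
  have hW3 := hW (s / (2 * U))
  have h8 : s * (2 - s) * X ≤ 2 * U * s - 4 * U ^ 2 := by
    have e1 : 4 * (s / (2 * U)) * U = 2 * s := by field_simp; ring
    have e2 : (s / (2 * U)) ^ 2 = s ^ 2 / (4 * U ^ 2) := by rw [div_pow]; ring
    rw [e1, e2] at hW3
    have e3 : s * (1 + s ^ 2 / (4 * U ^ 2) * X) + 2 * (s ^ 2 / (4 * U ^ 2)) * (U - X) =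
        s + s ^ 2 / (4 * U ^ 2) * (s * X + 2 * (U - X)) := by ring
    rw [e3] at hW3
    have h9 : s ≤ s ^ 2 / (4 * U ^ 2) * (s * X + 2 * (U - X)) := by linarith
    have h10 : s * (4 * U ^ 2) ≤ s ^ 2 * (s * X + 2 * (U - X)) := by
      have h11 := mul_le_mul_of_nonneg_right h9 (show (0:ℝ) ≤ 4 * U ^ 2 by positivity)
      have e4 : s ^ 2 / (4 * U ^ 2) * (s * X + 2 * (U - X)) * (4 * U ^ 2) =
          s ^ 2 * (s * X + 2 * (U - X)) := by field_simp
      rwa [e4] at h11
    have h12 : 4 * U ^ 2 ≤ s * (s * X + 2 * (U - X)) := by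
      have e5 : s * (4 * U ^ 2) ≤ s * (s * (s * X + 2 * (U - X))) := by
        calc s * (4 * U ^ 2) ≤ s ^ 2 * (s * X + 2 * (U - X)) := h10
          _ = s * (s * (s * X + 2 * (U - X))) := by ring
      exact le_of_mul_le_mul_left e5 hs0
    linarith
  have hs2 : s < 2 := by linarith
  have h13 : 4 * U ^ 2 * (2 - s) ≤ 2.7183 * s * (2 * U * s - 4 * U ^ 2) := by
    calc 4 * U ^ 2 * (2 - s) ≤ 2.7183 * (s ^ 2 * X) * (2 - s) :=
          mul_le_mul_of_nonneg_right hsin (by linarith)
      _ = 2.7183 * s * (s * (2 - s) * X) := by ring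
      _ ≤ 2.7183 * s * (2 * U * s - 4 * U ^ 2) := mul_le_mul_of_nonneg_left h8 (by positivity)
  have h14 : 2 * U * (2 - s) ≤ 2.7183 * s * (s - 2 * U) := by
    have e6 : 2 * U * (2 * U * (2 - s)) ≤ 2 * U * (2.7183 * s * (s - 2 * U)) := by
      calc 2 * U * (2 * U * (2 - s)) = 4 * U ^ 2 * (2 - s) := by ring
        _ ≤ 2.7183 * s * (2 * U * s - 4 * U ^ 2) := h13
        _ = 2 * U * (2.7183 * s * (s - 2 * U)) := by ring
    exact le_of_mul_le_mul_left e6 (by linarith)
  exact poly_ineq2 hU14 hUe (by linarith : d - R < 8 / 15) hs h14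

lemma sum_one_sub_sq2 {g : ι → E} {x : ι → ℝ} (hx : InQ g x) (c : ι → ℝ) :
    ∑ i, (1 - x i ^ 2) * c i = ∑ i ∈ alive x, (1 - x i ^ 2) * c i := by
  rw [← sum_add_sum_compl (alive x)]
  have h3 : ∑ i ∈ (alive x)ᶜ, (1 - x i ^ 2) * c i = 0 :=
    sum_eq_zero fun i hi => by
      have := abs_eq_one_of_not_alive hx (mem_compl.mp hi)
      rw [← sq_abs, this]; norm_num
  rw [h3, add_zero]

lemma arith2 {δ D Y X U : ℝ} (hδ : 7 / 15 < δ) (hD : 0 ≤ D) (hX : 0 ≤ X)
    (hY : 0 ≤ Y) (hXY : (1 - D) * X ≤ Y) (hDY : D + Y ≤ 1 - δ) (hU : δ - D / 2 ≤ U)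
    (hW : (1 - X) * U + 2 * Y ≤ (1 - δ - D) * (1 + X))
    (hS : 4 * U ^ 2 ≤ 2.7183 * ((1 - δ - D + U) ^ 2 * X)) : False := by
  have hD1 : D ≤ 8 / 15 := by linarith
  have hX1 : X < 1 := by
    by_contra h
    push Not at h
    have h1 : (1 - D) * 1 ≤ (1 - D) * X := mul_le_mul_of_nonneg_left h (by linarith)
    linarith
  have h2 := mul_le_mul_of_nonneg_left hU (show (0:ℝ) ≤ 1 - X by linarith)
  have h3 : D / 2 + X * (1 - D / 2) ≤ 1 / 15 := by nlinarith
  have h4 : 0 ≤ X * (1 - D / 2) := mul_nonneg hX (by linarith)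
  have h5 : D ≤ 2 / 15 := by linarith
  have h6 : X ≤ 1 / 13 := by nlinarith
  have hU1 : 2 / 5 ≤ U := by linarith
  have h7 : 1 - δ - D + U ≤ 8 / 15 + U := by linarith
  have h8 : 0 ≤ 1 - δ - D + U := by linarith
  have h9 : (1 - δ - D + U) ^ 2 ≤ (8 / 15 + U) ^ 2 := pow_le_pow_left₀ h8 h7 2
  have h10 : (1 - δ - D + U) ^ 2 * X ≤ (8 / 15 + U) ^ 2 * (1 / 13) :=
    mul_le_mul h9 h6 hX (by positivity)
  nlinarith

lemma final_stage2 [FiniteDimensional ℝ E] {v : ι → E} (hv : ∀ i, ‖v i‖ = 1) {R : ℝ}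
    (hR : Low univ v 0 R) (hRd : (finrank ℝ E : ℝ) - 8 / 15 < R)
    (hpar : Fintype.card ι % 2 ≠ finrank ℝ E % 2)
    (hN : ∀ N : Finset ι, (∀ a ∈ N, ∀ b ∈ N, a ≠ b → ¬ Close v 1 a b) →
      N.card ≤ finrank ℝ E) : False := by
  classical
  obtain ⟨L, m, p, r, h1, -, h3, h4, h5⟩ := pairing hv 1 (univ : Finset ι)
  have hL := hN L h1
  rw [card_univ] at h3
  have hL' : L.card + 1 ≤ finrank ℝ E := by
    have : L.card ≠ finrank ℝ E := fun e => hpar (by rw [← h3, e])
    omega
  set d := finrank ℝ E with hd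
  let g : L ⊕ Fin m → E := Sum.elim (fun i => v i) (fun t => p t - r t)
  obtain ⟨x, hx, hc⟩ := beck g
  set A := alive x with hA
  -- signs on `L`
  have hext : ∀ e : L → ℝ, Sgn e → ∃ ε : ι → ℝ, Sgn ε ∧
      ∑ i ∈ L, ε i • v i = ∑ i : L, e i • v i := by
    intro e he
    refine ⟨fun i => if h : i ∈ L then e ⟨i, h⟩ else 1, ?_, ?_⟩
    · intro i
      by_cases hi : i ∈ L
      · simp only [hi, dif_pos]; exact he _
      · simp [hi]
    · rw [← sum_coe_sort L]
      refine sum_congr rfl fun i _ => ?_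
      simp
  have hlow : Low univ g 0 R := by
    intro δ hδ
    obtain ⟨ε, hε, heε⟩ := hext (fun i => δ (Sum.inl i)) (fun i => hδ _)
    obtain ⟨η, hη, he⟩ := h5 ε (fun j => δ (Sum.inr j)) (fun j => -δ (Sum.inr j)) hε
      (fun j => hδ _) (fun j => by rcases hδ (Sum.inr j) with h | h <;> simp [h])
    have := hR η hη
    rw [he, heε] at this
    rw [Fintype.sum_sum_type]
    simpa [g, smul_sub, sub_eq_add_neg] using this
  -- the numbers
  obtain ⟨Ω, hΩ⟩ : ∃ Ω : L ⊕ Fin m → ℝ, Ω = fun a => ‖g a‖ ^ 2 := ⟨_, rfl⟩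
  have hΩa : ∀ a, ‖g a‖ ^ 2 = Ω a := fun a => by rw [hΩ]
  have hΩ1 : ∀ a, Ω a ≤ 1 := by
    intro a
    rw [← hΩa]
    rcases a with i | t
    · simp [g, hv]
    · exact (h4 t).2.2
  set D := ∑ a ∈ A, (1 - Ω a) with hD
  set Y := ∑ a ∈ A, x a ^ 2 * Ω a with hY
  set X := ∑ a ∈ A, x a ^ 2 with hX
  have hD0 : 0 ≤ D := sum_nonneg fun a _ => by linarith [hΩ1 a]
  have hY0 : 0 ≤ Y := sum_nonneg fun a _ => mul_nonneg (sq_nonneg _) (by
    rw [← hΩa]; exact sq_nonneg _)
  have hX0 : 0 ≤ X := sum_nonneg fun a _ => sq_nonneg _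
  -- independent rounding
  have hP := low_round g x R univ (fun i _ => hx.1 i) 0 hlow
  rw [hx.2, add_zero, norm_zero, sum_one_sub_sq2 hx] at hP
  simp only [hΩa, sub_mul, one_mul] at hP
  rw [sum_sub_distrib] at hP
  have hSΩ : ∑ a ∈ A, Ω a = A.card - D := by
    rw [hD, sum_sub_distrib]; simp
  rw [← hA, hSΩ] at hP
  have hP' : R ≤ A.card - D - Y := by
    have h12 : (0 : ℝ) ^ 2 = 0 := by norm_num
    rw [h12, zero_add] at hP
    exact hP
  have hAd : A.card = d := by
    refine le_antisymm hc ?_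
    by_contra h
    have : A.card + 1 ≤ d := by omega
    have : (A.card : ℝ) + 1 ≤ d := by exact_mod_cast this
    linarith
  rw [hAd] at hP' hSΩ
  -- an alive pair
  have hpair : ∃ t₀ : Fin m, Sum.inr t₀ ∈ A := by
    by_contra h
    push Not at h
    have h6 : A ⊆ (univ : Finset L).map ⟨Sum.inl, Sum.inl_injective⟩ := by
      intro a ha
      rcases a with i | t
      · simp
      · exact absurd ha (h t)
    have h7 := card_le_card h6
    rw [card_map, card_univ, Fintype.card_coe] at h7
    omega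
  obtain ⟨t₀, ht₀, hmin⟩ : ∃ t₀ : Fin m, Sum.inr t₀ ∈ A ∧ ∀ t, Sum.inr t ∈ A →
      Ω (Sum.inr t₀) ≤ Ω (Sum.inr t) := by
    obtain ⟨t₁, ht₁⟩ := hpair
    obtain ⟨t₀, ht₀, h⟩ := exists_min_image (univ.filter fun t : Fin m => Sum.inr t ∈ A)
      (fun t => Ω (Sum.inr t)) ⟨t₁, by simp [ht₁]⟩
    exact ⟨t₀, by simpa using ht₀, fun t ht => h t (by simp [ht])⟩
  set u := fsum g x with hu
  have hlowA := low_frozen hlow hx
  have hxu : ∑ a ∈ A, x a • g a = -u := fsum_eq hx
  -- quadratic weights along `x`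
  have hW : (1 - X) * ‖u‖ ^ 2 + 2 * Y ≤ (1 - (R - d + 1) - D) * (1 + X) := by
    have h := low_quad g x R A u 1 hlowA
    rw [hxu, norm_neg, inner_neg_right, real_inner_self_eq_norm_sq] at h
    simp only [hΩa] at h
    rw [hSΩ, ← hY, ← hX] at h
    nlinarith [h]
  -- kernel weights with one pair split
  have hK : R ≤ ‖u‖ ^ 2 + d - 1 + D / 2 := by
    obtain ⟨h, hh⟩ : ∃ h : Option (L ⊕ Fin m) → E, h = fun o =>
      o.elim (r t₀) (fun a => if a = Sum.inr t₀ then p t₀ else g a) := ⟨_, rfl⟩
    have hnone : h none = r t₀ := by rw [hh]; rfl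
    have hsome : ∀ a, h (some a) = if a = Sum.inr t₀ then p t₀ else g a := fun a => by
      rw [hh]; rfl
    have hlowh : Low univ h 0 R := by
      intro δ hδ
      obtain ⟨ε, hε, heε⟩ := hext (fun i => δ (some (Sum.inl i))) (fun i => hδ _)
      obtain ⟨η, hη, he⟩ := h5 ε (fun t => δ (some (Sum.inr t)))
        (fun t => if t = t₀ then δ none else -δ (some (Sum.inr t))) hε
        (fun j => hδ _) (fun j => by
          by_cases hj : j = t₀
          · simp only [hj, if_true]; exact hδ _
          · simp only [hj, if_false]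
            rcases hδ (some (Sum.inr j)) with h | h <;> simp [h])
      have := hR η hη
      rw [he, heε] at this
      rw [Fintype.sum_option, Fintype.sum_sum_type]
      have e1 : ∀ t, δ (some (Sum.inr t)) • p t +
          (if t = t₀ then δ none else -δ (some (Sum.inr t))) • r t =
          δ (some (Sum.inr t)) • h (some (Sum.inr t)) +
            (if t = t₀ then δ none • r t₀ else 0) := by
        intro t
        rw [hsome]
        by_cases ht : t = t₀
        · subst ht; simp
        · have : (Sum.inr t : L ⊕ Fin m) ≠ Sum.inr t₀ := fun e => ht (Sum.inr_injective e)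
          rw [if_neg ht, if_neg ht, if_neg this]
          simp [g, sub_eq_add_neg]
      simp only [e1, sum_add_distrib, sum_ite_eq', mem_univ, if_true] at this
      have e2 : ∀ i : L, h (some (Sum.inl i)) = v i := by
        intro i; rw [hsome, if_neg (by simp)]; rfl
      simp only [e2, hnone]
      have e3 : (0 : E) + ((∑ i : L, δ (some (Sum.inl i)) • v i) +
          ((∑ t, δ (some (Sum.inr t)) • h (some (Sum.inr t))) + δ none • r t₀)) =
          0 + (δ none • r t₀ + ((∑ i : L, δ (some (Sum.inl i)) • v i) +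
          ∑ t, δ (some (Sum.inr t)) • h (some (Sum.inr t)))) := by abel
      rw [← e3]
      exact this
    have hlowA' : Low (insertNone A) h u R := by
      intro η hη
      have h6 := hlowh (fun o => if o ∈ insertNone A then η o else o.elim 1 x) (by
        intro o
        by_cases ho : o ∈ insertNone A
        · simp only [ho, if_true]; exact hη o
        · simp only [ho, if_false]
          rcases o with - | a
          · simp at ho
          · have ha : a ∉ A := by simpa using ho
            have := abs_eq_one_of_not_alive hx ha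
            exact (abs_eq (by norm_num : (0:ℝ) ≤ 1)).mp this)
      rw [Fintype.sum_option] at h6
      have e1 : ∑ a, (if some a ∈ insertNone A then η (some a) else (some a).elim 1 x) •
          h (some a) = u + ∑ a ∈ A, η (some a) • h (some a) := by
        rw [hu, fsum, ← sum_add_sum_compl A (fun a => fr x a • g a),
          ← sum_add_sum_compl A (fun a => (if some a ∈ insertNone A then η (some a) else
            (some a).elim 1 x) • h (some a))]
        have f1 : ∑ a ∈ A, fr x a • g a = 0 := sum_eq_zero fun a ha => by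
          rw [fr_alive ha, zero_smul]
        have f2 : ∑ a ∈ A, (if some a ∈ insertNone A then η (some a) else (some a).elim 1 x) •
            h (some a) = ∑ a ∈ A, η (some a) • h (some a) :=
          sum_congr rfl fun a ha => by simp [ha]
        have f3 : ∑ a ∈ Aᶜ, (if some a ∈ insertNone A then η (some a) else (some a).elim 1 x) •
            h (some a) = ∑ a ∈ Aᶜ, fr x a • g a :=
          sum_congr rfl fun a ha => by
            have ha' : a ∉ A := mem_compl.mp ha
            have ha'' : a ≠ Sum.inr t₀ := fun e => ha' (e ▸ ht₀)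
            rw [hsome, if_neg ha'', fr_frozen ha']
            simp [ha']
        rw [f1, f2, f3, zero_add, add_comm]
      rw [e1] at h6
      rw [sum_insertNone]
      have e2 : (0 : E) + ((if none ∈ insertNone A then η none else (none : Option (L ⊕ Fin m)).elim 1 x) • h none +
          (u + ∑ a ∈ A, η (some a) • h (some a))) =
          u + (η none • h none + ∑ a ∈ A, η (some a) • h (some a)) := by
        simp only [none_mem_insertNone, if_true]
        abel
      rw [← e2]
      exact h6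
    obtain ⟨z, hz0, hz1, hz2⟩ := dep h (insertNone A) (by
      rw [card_insertNone, hAd]; omega)
    have hzA : ∑ o ∈ insertNone A, z o • h o = 0 := by
      rw [← hz2]
      exact sum_subset (subset_univ _) fun o _ ho => by rw [hz1 o ho, zero_smul]
    have hquad := low_quad h z R (insertNone A) u 0 hlowA'
    rw [hzA] at hquad
    simp only [norm_zero, inner_zero_right, mul_zero, add_zero] at hquad
    have hz02 : (0:ℝ) ^ 2 = 0 := by norm_num
    simp only [hz02, zero_add, mul_zero] at hquad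
    set Z := ∑ o ∈ insertNone A, z o ^ 2 with hZ
    have hZpos : 0 < Z := by
      obtain ⟨o, ho⟩ := hz0
      have hoA : o ∈ insertNone A := by
        by_contra h
        exact ho (hz1 o h)
      have h7 : z o ^ 2 ≤ Z := single_le_sum (f := fun o => z o ^ 2)
        (fun i _ => sq_nonneg _) hoA
      have : 0 < z o ^ 2 := by positivity
      linarith
    -- norms
    have hΩ0 : Ω (Sum.inr t₀) ≤ 1 := hΩ1 _
    have hDt : ∀ a ∈ A, a ≠ Sum.inr t₀ → (1 - Ω a) + (1 - Ω (Sum.inr t₀)) ≤ D := by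
      intro a ha hat
      rw [hD, ← add_sum_erase A _ ht₀]
      have ha' : a ∈ A.erase (Sum.inr t₀) := mem_erase.mpr ⟨hat, ha⟩
      have := single_le_sum (f := fun a => 1 - Ω a) (s := A.erase (Sum.inr t₀))
        (fun i _ => by linarith [hΩ1 i]) ha'
      linarith
    have hD1 : 1 - Ω (Sum.inr t₀) ≤ D :=
      single_le_sum (f := fun a => 1 - Ω a) (fun i _ => by linarith [hΩ1 i]) ht₀
    have hsumh : ∑ o ∈ insertNone A, ‖h o‖ ^ 2 = 2 + (d - D) - Ω (Sum.inr t₀) := by
      rw [sum_insertNone, hnone, (h4 t₀).2.1, ← add_sum_erase A _ ht₀, hsome, if_pos rfl,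
        (h4 t₀).1]
      have e1 : ∑ a ∈ A.erase (Sum.inr t₀), ‖h (some a)‖ ^ 2 =
          ∑ a ∈ A.erase (Sum.inr t₀), Ω a := sum_congr rfl fun a ha => by
        rw [hsome, if_neg (ne_of_mem_erase ha), hΩa]
      rw [e1]
      have e2 := add_sum_erase A Ω ht₀
      rw [hSΩ] at e2
      linarith
    have hle : ∀ a ∈ A, 1 - Ω a ≤ 1 - Ω (Sum.inr t₀) := by
      intro a ha
      rcases a with i | t
      · have : Ω (Sum.inl i) = 1 := by rw [← hΩa]; simp [g, hv]
        linarith
      · linarith [hmin t ha]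
    have hκ : ∀ o ∈ insertNone A,
        1 - (3 / 4 * D - (1 - Ω (Sum.inr t₀)) / 2) ≤ ‖h o‖ ^ 2 := by
      intro o ho
      rcases o with - | a
      · rw [hnone, (h4 t₀).2.1]; linarith
      · have ha : a ∈ A := by simpa using ho
        rw [hsome]
        by_cases hat : a = Sum.inr t₀
        · rw [if_pos hat, (h4 t₀).1]; linarith
        · rw [if_neg hat, hΩa]
          linarith [hDt a ha hat, hle a ha]
    have hsz : (1 - (3 / 4 * D - (1 - Ω (Sum.inr t₀)) / 2)) * Z ≤
        ∑ o ∈ insertNone A, z o ^ 2 * ‖h o‖ ^ 2 := by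
      rw [hZ, mul_sum]
      refine sum_le_sum fun o ho => ?_
      rw [mul_comm]
      exact mul_le_mul_of_nonneg_left (hκ o ho) (sq_nonneg _)
    rw [hsumh] at hquad
    have h8 : R * Z ≤ (‖u‖ ^ 2 + d - 1 + D / 2) * Z := by nlinarith
    exact le_of_mul_le_mul_right h8 hZpos
  have hXY : (1 - D) * X ≤ Y := by
    rw [hX, hY, mul_sum]
    refine sum_le_sum fun a ha => ?_
    have h1 : 1 - Ω a ≤ D :=
      single_le_sum (f := fun a => 1 - Ω a) (fun i _ => by linarith [hΩ1 i]) ha
    rw [mul_comm]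
    exact mul_le_mul_of_nonneg_left (by linarith) (sq_nonneg (x a))
  have hsin : 4 * (‖u‖ ^ 2) ^ 2 ≤
      2.7183 * ((1 - (R - d + 1) - D + ‖u‖ ^ 2) ^ 2 * X) := by
    rcases hX0.lt_or_eq with hXpos | hXz
    · set U := ‖u‖ ^ 2 with hU
      have hU0 : 0 ≤ U := sq_nonneg _
      set l := 1 / Real.sqrt X with hl
      have hl0 : 0 < l := by positivity
      have hl2 : l ^ 2 * X = 1 := by
        rw [hl, div_pow, Real.sq_sqrt hX0]
        field_simp
      have hscale : ∑ i ∈ A, (l * x i) • g i = -(l • u) := by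
        simp only [mul_smul, ← smul_sum, hxu, smul_neg]
      have hsq : ∑ i ∈ A, (l * x i) ^ 2 = l ^ 2 * X := by
        simp only [mul_pow, ← mul_sum, hX]
      have h := low_cos g (fun i => Real.arctan (l * x i)) (fun i => l * x i) (by
        intro i
        rw [Real.sin_arctan, Real.cos_arctan]
        ring) R A u (-(Real.pi / 2)) hlowA
      simp only [Real.cos_neg, Real.cos_pi_div_two, Real.sin_neg, Real.sin_pi_div_two, zero_mul,
        add_zero, mul_one, hscale, inner_neg_right, inner_smul_right, real_inner_self_eq_norm_sq,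
        zero_sub, hΩa] at h
      rw [hSΩ] at h
      set C := ∏ i ∈ A, Real.cos (Real.arctan (l * x i)) with hC
      set s := 1 - (R - d + 1) - D + U with hs
      have h1 : 2 * C * l * U ≤ s := by
        rw [← hU] at h
        nlinarith [h]
      have hC0 : 0 < C := prod_pos fun i _ => Real.cos_arctan_pos _
      have hC2 : Real.exp (-1) ≤ C ^ 2 := by
        rw [hC, ← prod_pow, ← hl2, ← hsq, ← sum_neg_distrib, Real.exp_sum]
        apply prod_le_prod
        · intro i _; positivity
        · intro i _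
          rw [Real.cos_sq_arctan, Real.exp_neg, one_div]
          apply inv_anti₀ (by positivity)
          have := Real.add_one_le_exp ((l * x i) ^ 2)
          linarith
      have h2 : (2 * C * l * U) ^ 2 ≤ s ^ 2 := pow_le_pow_left₀ (by positivity) h1 2
      have h3 : 4 * U ^ 2 * C ^ 2 ≤ s ^ 2 * X := by
        have : (2 * C * l * U) ^ 2 * X = 4 * U ^ 2 * C ^ 2 * (l ^ 2 * X) := by ring
        rw [hl2, mul_one] at this
        rw [← this]
        exact mul_le_mul_of_nonneg_right h2 hX0
      have h4' : 4 * U ^ 2 * Real.exp (-1) ≤ s ^ 2 * X :=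
        (mul_le_mul_of_nonneg_left hC2 (by positivity)).trans h3
      have h5' : Real.exp (-1) * Real.exp 1 = 1 := by rw [← Real.exp_add]; simp
      have h6 := Real.exp_one_lt_d9
      have h7 : 0 < Real.exp (-1) := Real.exp_pos _
      have h8 : 4 * U ^ 2 = 4 * U ^ 2 * Real.exp (-1) * Real.exp 1 := by
        rw [mul_assoc, h5', mul_one]
      have h9 : 0 ≤ s ^ 2 * X := by positivity
      calc 4 * U ^ 2 = 4 * U ^ 2 * Real.exp (-1) * Real.exp 1 := h8
        _ ≤ s ^ 2 * X * Real.exp 1 := mul_le_mul_of_nonneg_right h4' (Real.exp_pos _).le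
        _ ≤ s ^ 2 * X * 2.7183 := mul_le_mul_of_nonneg_left (by linarith) h9
        _ = 2.7183 * (s ^ 2 * X) := by ring
    · have h1 : ∀ i ∈ A, x i ^ 2 = 0 := by
        rw [← sum_eq_zero_iff_of_nonneg (fun i _ => sq_nonneg (x i))]
        exact hXz.symm
      have h2 : ∑ i ∈ A, x i • g i = 0 := sum_eq_zero fun i hi => by
        have := h1 i hi
        have : x i = 0 := by simpa using this
        simp [this]
      rw [hxu, neg_eq_zero] at h2
      rw [h2]
      simp [← hXz]
  exact arith2 (δ := R - d + 1) (by linarith) hD0 hX0 hY0 hXY (by linarith) (by linarith) hW hsin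

/-- The main bound. -/
theorem main2 [FiniteDimensional ℝ E] (v : ι → E) (hv : ∀ i, ‖v i‖ = 1)
    (hpar : Fintype.card ι % 2 ≠ finrank ℝ E % 2) :
    ∃ η : ι → ℝ, Sgn η ∧ ‖∑ i, η i • v i‖ ^ 2 ≤ finrank ℝ E - 8 / 15 := by
  classical
  let sg : (ι → Bool) → ι → ℝ := fun b i => if b i then 1 else -1
  obtain ⟨b, -, hb⟩ := exists_min_image (univ : Finset (ι → Bool))
    (fun b => ‖∑ i, sg b i • v i‖ ^ 2) ⟨fun _ => true, mem_univ _⟩
  refine ⟨sg b, fun i => by simp only [sg]; split_ifs <;> simp, ?_⟩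
  set R := ‖∑ i, sg b i • v i‖ ^ 2 with hRdef
  have hR : Low univ v 0 R := by
    intro η hη
    have := hb (fun i => decide (η i = 1)) (mem_univ _)
    have e : ∀ i, sg (fun i => decide (η i = 1)) i = η i := by
      intro i
      simp only [sg, decide_eq_true_eq]
      rcases hη i with h | h
      · simp [h]
      · rw [h]; norm_num
    simp only [e] at this
    rw [zero_add]
    exact this
  by_contra hcon
  push Not at hcon
  have hshort : ∀ x, InQ v x → (alive x).card ≤ finrank ℝ E → ‖fsum v x‖ ≤ 1 / 2 := by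
    intro x hx hc
    have h := frozen_short2 hv hR hcon hx hc
    have : ‖fsum v x‖ ^ 2 ≤ (1 / 2) ^ 2 := by linarith
    exact abs_le_of_sq_le_sq' this (by norm_num) |>.2
  refine final_stage2 hv hR hcon hpar ?_
  intro N hN
  exact indep_card hv hR (by linarith) hshort (by norm_num) (by norm_num) (by norm_num) N hN

end Pool.Agent.H99.BV
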